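import Pool.Agent.H96.FA3

open Pool.Agent.H96.FA

namespace Pool.Agent.Results.MP_762bfd_nt.QOneA

theorem result :
    (DD ⊔ Pol ⊔ PP ≤ Fer) ∧
      Nonempty ((↥Fer ⧸ (DD ⊔ Pol ⊔ PP).addSubgroupOf Fer) ≃+ (ℕ →₀ ℚ)) := by
  refine main good_alg _ _ ?_ ?_
  · exact (inf_eq_left.2 fun R h => h.1).symm
  · rw [inf_eq_left.2 (show DD ≤ algG from ?_), inf_eq_left.2 (show PP ≤ algG from ?_)]
    · refine (AddSubgroup.closure_le _).2 ?_
      rintro _ ⟨M, hM, U, hU, rfl⟩
      rw [← PowerSeries.expand_apply M (by omega)]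
      refine IsAlgebraic.ringHom_of_comp_eq (Polynomial.expand ℤ M) (PowerSeries.expand M (by omega)) hU
        (Polynomial.expand_injective (by omega)) ?_
      apply Polynomial.ringHom_ext
      · intro c
        simp only [RingHom.comp_apply, RingHom.coe_coe]
        rw [am_eq, am_eq, Polynomial.expand_C, Polynomial.coe_C, PowerSeries.expand_C]
      · simp only [RingHom.comp_apply, RingHom.coe_coe]
        rw [am_eq, am_eq, Polynomial.expand_X, Polynomial.coe_pow, Polynomial.coe_X, PowerSeries.expand_X]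
    · rintro _ ⟨U, hU, rfl⟩
      exact alg_th hU

end Pool.Agent.Results.MP_762bfd_nt.QOneA
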