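import Pool.Agent.H96.FA3

open Pool.Agent.H96.FA

namespace Pool.Agent.Results.MP_762bfd_nt.QTwo

theorem result :
    ((DD ⊓ ratG) ⊔ Pol ⊔ (PP ⊓ ratG) ≤ Fer ⊓ ratG) ∧
      Nonempty ((↥(Fer ⊓ ratG) ⧸ ((DD ⊓ ratG) ⊔ Pol ⊔ (PP ⊓ ratG)).addSubgroupOf (Fer ⊓ ratG))
        ≃+ (ℕ →₀ ℚ)) :=
  main good_rat _ _ rfl rfl

end Pool.Agent.Results.MP_762bfd_nt.QTwo
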